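import Pool.Agent.K4H79.LC.Fin

/-!
# Hypergraphs induced by `n` axis-parallel rectangles are `O(log n)`-choosable

`R : V → Set (ℝ × ℝ)` is a family of `n = |V|` axis-parallel rectangles.  The hypergraph induced by
the family has the vertex set `V` and, for every point `p` of the plane, the hyperedge formed by the
members that contain `p`.  (A set of rectangles is the family indexed by itself.)

Proof.  Interval tree: a node is a vertical line `ℓ` together with the strip in which it lies; `T` is
the set of the rectangles of this strip stabbed by `ℓ`, and `A` is the set of all rectangles that are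
stabbed by the lines of the ancestors; every member of `A` enters the strip from one side only, or
crosses it.  For a point `p`, consider only the topmost node at which at least two members of
`A ∪ T` contain `p`.  At every height there are at most six relevant pairs (extreme members of `A`
and of `T`, or the two extreme members of `T`), so every subset of `A ∪ T` of size `N` spans at most
`6 (4 N + 1)` conflicts, and the conflicts can be oriented with at most `60` at every member.  Those
charged to a member `v` of `T` are avoided greedily (`few`); for those charged to members `u` of `A`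
(`u` is thin for `v`, a member of `A` is thin for at most `60` members of `T`) a rank
`ρ v = ⌈log₂ (4 ∑_{u thin for v} 2 ^ ρ u)⌉` is introduced; the sum of `2 ^ ρ` over `A ∪ T` grows by a
factor at most `481` per level, so `ρ = O(log n)`.  The colours are distributed at random over
`D = O(log n)` layers, and `v` uses the first layer `≥ ρ v` in which it has more than `60` colours
and before which all its thin neighbours have been coloured.  By induction and an exponential moment
estimate, `v` is uncoloured before the layer `l` with probability at most `2 ^ (ρ v - l)`.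
-/

namespace Pool.Agent.Results.MP_e9fc1b_co.LogChoosable

/-- An axis-parallel rectangle `[a, b] × [c, d]` with `a < b` and `c < d`. -/
def IsRect (S : Set (ℝ × ℝ)) : Prop :=
  ∃ a b c d : ℝ, a < b ∧ c < d ∧ S = Set.Icc a b ×ˢ Set.Icc c d

/-- The hyperedges of the hypergraph induced by the family `R` of regions: for every point `p` of
the plane the set of the members that contain `p`. -/
def hyperedges {V : Type} (R : V → Set (ℝ × ℝ)) : Set (Set V) :=
  {S | ∃ p : ℝ × ℝ, S = {v | p ∈ R v}}

/-- A colouring by positive integers is proper if every hyperedge with at least two vertices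
contains two vertices with different colours. -/
def Proper {V : Type} (E : Set (Set V)) (C : V → ℕ+) : Prop :=
  ∀ S ∈ E, S.Nontrivial → ∃ u ∈ S, ∃ v ∈ S, C u ≠ C v

/-- `k`-choosability: for all lists of at least `k` positive integers there is a proper colouring
from the lists. -/
def Choosable {V : Type} (E : Set (Set V)) (k : ℕ) : Prop :=
  ∀ L : V → Set ℕ+, (∀ v, (k : ℕ∞) ≤ (L v).encard) → ∃ C : V → ℕ+, (∀ v, C v ∈ L v) ∧ Proper E C

/-- The choice number: the least `k` for which the hypergraph is `k`-choosable. -/
noncomputable def ch {V : Type} (E : Set (Set V)) : ℕ := sInf {k | Choosable E k}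

/-- For every `n ≥ 2` and every family of `n` axis-parallel rectangles the induced hypergraph is
`k`-choosable for every `k ≥ 4000 log n`, and its choice number is at most `4000 log n`. -/
theorem result (n : ℕ) (hn : 2 ≤ n) (V : Type) [Fintype V] (hV : Fintype.card V = n)
    (R : V → Set (ℝ × ℝ)) (hR : ∀ v, IsRect (R v)) :
    (∀ k : ℕ, 4000 * Real.log n ≤ k → Choosable (hyperedges R) k) ∧
      (ch (hyperedges R) : ℝ) ≤ 4000 * Real.log n := by
  classical
  choose a b c d hab hcd hRe using hR
  have hmem : ∀ (p : ℝ × ℝ) (v : V),
      p ∈ R v ↔ (a v ≤ p.1 ∧ p.1 ≤ b v ∧ c v ≤ p.2 ∧ p.2 ≤ d v) := by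
    intro p v
    rw [hRe v, Set.mem_prod, Set.mem_Icc, Set.mem_Icc, and_assoc]
  -- the lists of size `1364 (log₂ n + 1)` suffice
  have key : ∀ k : ℕ, 1364 * (Nat.log 2 n + 1) ≤ k → Choosable (hyperedges R) k := by
    intro k hk L hL
    obtain ⟨C, hC1, hC2⟩ := Pool.Agent.K4H79.LC.colour_family a b c d (fun v => (hab v).le)
      (Nat.log 2 n + 1) (by rw [hV]; exact Nat.lt_pow_succ_log_self (by norm_num) n) L
      (fun v => le_trans (by exact_mod_cast hk) (hL v))
    refine ⟨C, hC1, ?_⟩
    rintro S ⟨p, rfl⟩ ⟨v, hv, w, hw, hvw⟩
    obtain ⟨x, y, hx, hy, hxy⟩ := hC2 p v w hvw ((hmem p v).1 hv) ((hmem p w).1 hw)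
    exact ⟨x, (hmem p x).2 hx, y, (hmem p y).2 hy, hxy⟩
  have hb := Pool.Agent.K4H79.LC.size_bound hn
  refine ⟨fun k hk => key k ?_, ?_⟩
  · exact_mod_cast hb.trans hk
  · refine le_trans ?_ hb
    exact_mod_cast Nat.sInf_le (key _ le_rfl)

end Pool.Agent.Results.MP_e9fc1b_co.LogChoosable
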